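import Pool.Agent.Helper37K9.DT.Col
import Pool.Agent.Helper37K9.RN.Fin
import Pool.Agent.R882.UC

/-!
# Viehweg's inequality for images of complete intersections: general type or uniruled

Let `V` be a smooth complete intersection of dimension `n ≥ 1` of hypersurfaces `F_k = 0` of
degrees `d_k`, `k ∈ κ`, in the projective space `P^N`, with `K_V = O(m)`, `m = Σ d_k - N - 1`. Let
`W` be a smooth projective variety with a dominant rational map `V ⇢ W` of degree `r`. Assume that

* `s = 1`, `m ≥ 5` and `r ≤ 5 m / 4 + 1 / 2`; or
* `r` is arbitrary, and the points of the general fibre lie on a rational normal curve of degree `s`,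
  where `s ≥ 1` is a natural number, `m ≥ 2` if `s ≥ 2`, and `2 s < ρ`.

Here `ρ = max(r, b)`, where `b = m + 1` for `s = 1` and `b = s (m - 2) + 2` for `s ≥ 2`. Let `k ∈ κ` be
such that `s d_k < ρ + b` and `s d_j < ρ` for all `j ≠ k`. Nothing else is assumed about the map or
about `W`. The theorem:

* `W` is of general type; or `b ≤ r ≤ s d_k`, the points of the general fibre lie on a rational
  normal curve of degree `s`, and `W` is dominated by a component of a hyperplane section of the
  complete intersection of the hypersurfaces `F_j = 0`, `j ≠ k`;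
* if moreover `Σ_{j ≠ k} d_j ≤ N - 2` (for smooth `V` this says that `d_k ≥ m + 3`), then `W` is of
  general type or uniruled: these are equivalent: `κ(W) = n`; `κ(W) ≥ 0`; `K_W` is pseudo-effective;
  `W` is not uniruled. For all fibrations `W → Y` (of smooth models; all rational maps of `W` onto
  varieties `Y` are allowed) with generic fibre `F` and `κ(Y) ≥ 0` the inequality
  `κ(W) ≥ κ(F) + dim Y` holds, which is Viehweg's inequality `κ(W) ≥ κ(F) + max (κ(Y), Var)` and more;
* if `V` is a hypersurface, then `W` is of general type or unirational.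

For instance, for a smooth hypersurface `V` of dimension `n` and degree `d` (so `m = d - n - 2`) the
conditions on the degrees are satisfied if `s = 1` and `m ≥ n + 1`, that is `d ≥ 2 n + 3`, and for
all `s` if `m ≥ n + 6`. So the image of a smooth hypersurface of degree `d ≥ max (2 n + 3, n + 7)`
under any rational map of degree at most `5 m / 4 + 1 / 2` is of general type or unirational. More
generally `V` may be any component of dimension `n`, arbitrarily singular, of a complete intersection
which is reduced along it, if some canonical form of `V` vanishes at least `m` times on the hyperplane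
sections.

For `r ≤ m` the methods of the starting repository show that the image is of general type. For larger
degrees, and for fibres on rational normal curves, the results of the starting repository and those
of this team on `MP_e06174_ag` and `MP_23b606_ag` describe the images with `p_g(W) = 0` only; they
say nothing about the Kodaira dimension of the images with `p_g(W) > 0`, or about their fibrations.
For these a new argument is needed, as the traces of canonical forms do not vanish.

Proof. Let `K ⊇ L` be the function fields of `V` and `W`. The traces of the canonical forms `A ω`,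
`A` of degree `m`, are canonical forms of `W`. Let `N ⊆ L` be the field of the ratios of the regular
pluricanonical forms of `W` (of the same weight), and assume that `W` is not of general type. If
some trace is not zero then some coordinate of the generic point `x` of `V` is not algebraic over
`N`. Let `ι` and `τ` be two embeddings, independent over `N`, of an algebraic closure of `L` in a
larger field. As the ratios of the traces are in `N`, the values of the forms of degree `m` at the
`2 r` points `ι(σ x)` and `τ(σ x)`, `σ` the embeddings of `K` over `L`, satisfy a linear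
relation with coefficients different from zero.

(1) If the fibre is on a rational normal curve `C` then no point `ι(σ x)` is on `τ(C)`: otherwise,
as `V ∩ C` is finite (`V` is not uniruled), `x` would be algebraic over `N`. So a form of degree
`e`, `e = 1` for `s = 1` and `e = 2` for `s ≥ 2`, vanishes at all points of `τ(C)` and at none of the
points `ι(σ x)`. The `r` points `ι(σ x)` satisfy a relation in degree `m - e`, and so `r` is at least
`s (m - e) + 2 = b`. This also applies to the residual points of `C ∩ V`: if they dominate `V`, then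
they have at least `b` conjugates over `L`. So the degree of `C ∩ (F_k = 0)` is at least `r + b`,
a contradiction. Then the ramification argument of `MP_e06174_ag.FibresOnNormalCurves` shows that
a general point of the variety `Y` which is swept out by the curves `C` lies on one of them, so `Y`
and its hyperplane sections dominate `W`.

(2) If `4 r ≤ 5 m + 2` then the `2 r` points are on two lines, or on a conic. A line or a conic
which contains sufficiently many points `τ(σ x)` is defined over `τ`, and so contains no point
`ι(σ x)`. Hence the points `ι(σ x)` are on a line.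

The function-field language of the starting repository is used: `K` is the function field of `V`,
and `L`, a subfield of `K`, the function field of `W`. A canonical form (`IsPluri 1`) on a variety
of dimension `n` is a function of `n` rational vector fields; it is regular at the prime divisor `P`
(`Place`, `Divisorial`, `RegAt`) if its value on vector fields which are regular at `P` is regular
at `P`. `KodGe k L n (fun _ => False) h` says that `κ ≥ h`, `Psef k L n (fun _ => False)` that the
canonical divisor is pseudo-effective, for the smooth projective varieties of dimension `n` over `k`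
with the function field `L` (`Pool/Agent/W602/GT`), `IsUniruled ℂ L n` that they are uniruled
(`Pool/Agent/W619/PQ/Defs.lean`). The points of the fibre over the (geometric) generic point of `W`
are the conjugates of the generic point `x` of `V` over `L`.
-/

set_option autoImplicit false
set_option linter.overlappingInstances false
set_option linter.unusedDecidableInType false

open FF MvPolynomial Pool.Agent.W602.GT
open Pool.Agent.W619.PQ (IsUniruled)

namespace Pool.Agent.Results.MP_5c318e_ag.GeneralTypeOrUniruled

section

variable {κ : Type} {N : ℕ}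

/-- The hypersurfaces `F k = 0` of projective `N`-space meet transversally: the gradients of the
equations are linearly independent at all common zeros. -/
def IsSmooth (F : κ → MvPolynomial (Fin (N + 1)) ℂ) : Prop :=
  ∀ z : Fin (N + 1) → ℂ, z ≠ 0 → (∀ k, eval z (F k) = 0) →
    LinearIndependent ℂ fun (k : κ) (l : Fin (N + 1)) => eval z (pderiv l (F k))

variable {K : Type} [Field K] [Algebra ℂ K]

/-- `x` is the generic point of an irreducible component, of dimension `n`, of the intersection of
the hypersurfaces `F k = 0` of projective `N`-space, and `K` is its function field; the homogeneous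
coordinates are normalised by `x i = 1`. -/
structure IsGenericPoint (n : ℕ) (F : κ → MvPolynomial (Fin (N + 1)) ℂ) (i : Fin (N + 1))
    (x : Fin (N + 1) → K) : Prop where
  one : x i = 1
  zero : ∀ k, aeval x (F k) = 0
  gen : IntermediateField.adjoin ℂ (Set.range x) = ⊤
  dim : Algebra.trdeg ℂ K = n

/-- The gradients of the equations are linearly independent at the generic point. -/
def IsTransversal (F : κ → MvPolynomial (Fin (N + 1)) ℂ) (x : Fin (N + 1) → K) : Prop :=
  LinearIndependent K fun (k : κ) (l : Fin (N + 1)) => aeval x (pderiv l (F k))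

/-- There is a canonical form `ω ≠ 0` such that the canonical forms `A ω` are regular at all prime
divisors for all monomials (hence for all forms) `A` of degree `m` in the homogeneous coordinates
`x`: the divisor of `ω`, on all smooth models, is at least `m` times the hyperplane section. -/
def HasForm (n m : ℕ) (x : Fin (N + 1) → K) : Prop :=
  ∃ ω : (Fin n → Derivation ℂ K K) → K, IsPluri 1 ω ∧ (∃ D, ω D ≠ 0) ∧
    ∀ (f : Fin m → Fin (N + 1)) (P : Place ℂ K), Divisorial n P →
      RegAt P (fun D => (∏ k, x (f k)) * ω D)

/-- The points of the fibre of `V ⇢ W` over the geometric generic point of `W`: the conjugates of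
the generic point `x` over `L`. -/
noncomputable def conj (L : Type) [Field L] [Algebra L K] (x : Fin (N + 1) → K)
    (σ : K →ₐ[L] AlgebraicClosure L) (j : Fin (N + 1)) : AlgebraicClosure L := σ (x j)

/-- The points of the generic fibre lie on a rational normal curve of degree `s` in a linear
subspace of dimension `s` of projective `N`-space: they are proportional to the points
`Σ t ^ k w k`, for `s + 1` independent points `w k` and suitable parameters `t`. -/
def OnNormalCurve (L : Type) [Field L] [Algebra L K] (x : Fin (N + 1) → K) (s : ℕ) : Prop :=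
  ∃ (w : Fin (s + 1) → Fin (N + 1) → AlgebraicClosure L)
    (t c : (K →ₐ[L] AlgebraicClosure L) → AlgebraicClosure L),
    LinearIndependent (AlgebraicClosure L) w ∧
      ∀ σ j, conj L x σ j = c σ * ∑ k : Fin (s + 1), t σ ^ (k : ℕ) * w k j

end

/-- The Kodaira dimension of the smooth projective varieties of dimension `n` over `k` with the
function field `L` is at least `h`. -/
def KappaGe (k L : Type) [Field k] [Field L] [Algebra k L] (n h : ℕ) : Prop :=
  KodGe k L n (fun _ => False) h

/-- The canonical divisor of the smooth projective varieties of dimension `n` over `ℂ` with the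
function field `L` is pseudo-effective. -/
def IsPseudoEffective (L : Type) [Field L] [Algebra ℂ L] (n : ℕ) : Prop :=
  Psef ℂ L n (fun _ => False)

/-- The varieties of dimension `n` with function field `L` are unirational: they are dominated by
the projective space of dimension `n`. -/
def IsUnirational (L : Type) [Field L] [Algebra ℂ L] (n : ℕ) : Prop :=
  Nonempty (L →ₐ[ℂ] FractionRing (MvPolynomial (Fin n) ℂ))

/-- The varieties of dimension `n` with function field `L` are dominated by a component `M` of a
hyperplane section `H = 0` of the intersection of the hypersurfaces `F j = 0`, `j ≠ k`, and the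
gradients of these equations are linearly independent at its generic point `z`. -/
def DominatedBySection {κ : Type} [DecidableEq κ] {N : ℕ} (L : Type) [Field L] [Algebra ℂ L]
    (n : ℕ) (F : κ → MvPolynomial (Fin (N + 1)) ℂ) (k : κ) : Prop :=
  ∃ (M : Type) (_ : Field M) (_ : Algebra ℂ M) (H : MvPolynomial (Fin (N + 1)) ℂ)
    (z : Fin (N + 1) → M) (i : Fin (N + 1)), H.IsHomogeneous 1 ∧ H ≠ 0 ∧
      IsGenericPoint n (Function.update F k H) i z ∧ IsTransversal (Function.update F k H) z ∧
      Nonempty (L →ₐ[ℂ] M)

/-- The strong form of Viehweg's inequality for all fibrations of the smooth projective varieties `W`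
of dimension `n` with function field `L`: for all dominant rational maps `W ⇢ Y`, given by the
subfield `E` of `L`, with `κ(Y) ≥ 0`, `d = dim Y`, and generic fibre `F` of dimension `f` (a variety
over `E` with function field `L`), `κ(W) ≥ κ(F) + dim Y`. -/
def ViehwegHolds (L : Type) [Field L] [Algebra ℂ L] (n : ℕ) : Prop :=
  ∀ (E : IntermediateField ℂ L) (d f q : ℕ), Algebra.EssFiniteType ℂ E →
    Algebra.trdeg ℂ E = d → Algebra.trdeg E L = f → KappaGe ℂ E d 0 → KappaGe E L f q →
      KappaGe ℂ L n (q + d)

/-- **Images of complete intersections: general type or uniruled.** Let `V` be a component, of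
dimension `n ≥ 1`, of the intersection of the hypersurfaces `F k = 0` of degrees `d k`, `k ∈ κ`, in
`P^N`, `N = n + |κ|`, with function field `K`. Let either the complete intersection be smooth, with
`Σ d k = m + N + 1`, or let it be reduced along `V`, and let the divisor of some canonical form of `V`
be at least `m` times the hyperplane section. Let `W` be a smooth projective variety with function
field `L` and `V ⇢ W` a dominant rational map of degree `r`. Let `s ≥ 1`, `b = m + 1` if `s = 1` and
`b = s (m - 2) + 2` if `s ≥ 2`, and `ρ = max(r, b)`. Let `s = 1`, `4 r ≤ 5 m + 2` and `m ≥ 5`, or let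
the points of the generic fibre lie on a rational normal curve of degree `s` (and `2 s < ρ`, and
`m ≥ 2` if `s ≥ 2`). Let `s d_k < ρ + b`, and `s d_j < ρ` for all `j ≠ k`. Then `W` is of general type;
or `b ≤ r ≤ s d_k`, the points of the generic fibre lie on a rational normal curve of degree `s`, and
`W` is dominated by a component of a hyperplane section of the intersection of the hypersurfaces
`F j = 0`, `j ≠ k`. If moreover `Σ_{j ≠ k} d j ≤ N - 2` then `κ(W) = n` if and only if `κ(W) ≥ 0`, if
and only if `K_W` is pseudo-effective, if and only if `W` is not uniruled; and the inequality of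
Viehweg holds for all fibrations of `W`. If `V` is a hypersurface then all this is equivalent to `W`
not being unirational. -/
theorem result {n N m s b : ℕ} (hn : 1 ≤ n) (hs : 1 ≤ s)
    (hb : b = if s = 1 then m + 1 else s * (m - 2) + 2) {κ : Type} [Fintype κ] [DecidableEq κ]
    (hN : n + Fintype.card κ = N) {F : κ → MvPolynomial (Fin (N + 1)) ℂ} {d : κ → ℕ}
    (hd : ∀ k, (F k).IsHomogeneous (d k)) {K : Type} [Field K] [Algebra ℂ K] {i : Fin (N + 1)}
    {x : Fin (N + 1) → K} (hx : IsGenericPoint n F i x)
    (hV : (IsSmooth F ∧ ∑ k, d k = m + N + 1) ∨ (IsTransversal F x ∧ HasForm n m x))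
    (L : Type) [Field L] [Algebra ℂ L] [Algebra L K] [IsScalarTower ℂ L K]
    [FiniteDimensional L K] {ρ : ℕ} (hρ : ρ = max (Module.finrank L K) b)
    (hfib : (s = 1 ∧ 4 * Module.finrank L K ≤ 5 * m + 2 ∧ 5 ≤ m) ∨
      (OnNormalCurve L x s ∧ 2 * s < ρ ∧ (s = 1 ∨ 2 ≤ m)))
    (k : κ) (hk : s * d k < ρ + b) (hj : ∀ j, j ≠ k → s * d j < ρ) :
    (KappaGe ℂ L n n ∨ (b ≤ Module.finrank L K ∧ Module.finrank L K ≤ s * d k ∧
      OnNormalCurve L x s ∧ DominatedBySection L n F k)) ∧
    (∑ j, d j + 2 ≤ N + d k →
      [KappaGe ℂ L n n, KappaGe ℂ L n 0, IsPseudoEffective L n, ¬ IsUniruled ℂ L n].TFAE ∧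
      ViehwegHolds L n) ∧
    (Fintype.card κ = 1 →
      [KappaGe ℂ L n n, KappaGe ℂ L n 0, IsPseudoEffective L n, ¬ IsUniruled ℂ L n,
        ¬ IsUnirational L n].TFAE) := by
  classical
  have hessK : Algebra.EssFiniteType ℂ K := by
    rw [← IntermediateField.fg_top_iff]
    exact ⟨Finset.univ.image x, by
      rw [Finset.coe_image, Finset.coe_univ, Set.image_univ, hx.gen]⟩
  have hessL : Algebra.EssFiniteType ℂ L := Pool.Agent.TH466.QG.ess_below (K := K)
  have hcL : CharZero L := charZero_of_injective_algebraMap (algebraMap ℂ L).injective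
  have hL : Algebra.trdeg ℂ L = n := Pool.Agent.Y184.NT.trdeg_below (K := K) hx.dim
  have hi0 : x i ≠ 0 := by
    rw [hx.one]
    exact one_ne_zero
  obtain ⟨v, hv⟩ := Pool.Agent.Helper37K9.CI.exists_coord x (d := n) (by
    rw [hx.gen]
    have h1 : Algebra.trdeg ℂ (⊤ : IntermediateField ℂ K) = Algebra.trdeg ℂ K :=
      IntermediateField.topEquiv.trdeg_eq
    rw [h1, hx.dim])
  have hcard1 : 1 ≤ Fintype.card κ := Fintype.card_pos_iff.2 ⟨k⟩
  obtain ⟨N', rfl⟩ : ∃ N', N = N' + 1 := ⟨N - 1, by omega⟩
  have hgr : IsTransversal F x := by
    rcases hV with ⟨hsm, -⟩ | ⟨h, -⟩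
    · obtain ⟨S, hS⟩ := Pool.Agent.TH145.SP.exists_minor_ne hsm hi0 hx.zero
      exact Pool.Agent.Helper37K9.CI.ind_of_jac hS
    · exact h
  obtain ⟨ω, hω, hω0, hreg⟩ : HasForm n m x := by
    rcases hV with ⟨hsm, hm⟩ | ⟨-, h⟩
    · obtain ⟨ω, hω, hω0, hreg⟩ := Pool.Agent.Helper37K9.CI.exists_form hd hsm (m := m) (by omega)
        hN hx.zero hx.one hv
      exact ⟨ω, hω, hω0, fun f P _ => hreg f P⟩
    · exact h
  have hNLG : Pool.Agent.Y184.NT.StNLG := Pool.Agent.Y944.NT.stNLG
    (Pool.Agent.Y297.NT.t_Pull Pool.Agent.Y71.NT.t_abh) Pool.Agent.Y929.NT.t_W0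
    Pool.Agent.Y888.NT.stDer
  -- the degree of the forms which vanish on the curves
  obtain ⟨e, he⟩ : ∃ e : ℕ, e = if s = 1 then 1 else 2 := ⟨_, rfl⟩
  have hsm : s = 1 ∨ 2 ≤ m := by
    rcases hfib with ⟨h, -, -⟩ | ⟨-, -, h⟩
    · exact Or.inl h
    · exact h
  have hbe : b = s * m + 2 - e * s ∧ e * s ≤ s * m + 1 := by
    by_cases hs1 : s = 1
    · subst hs1
      rw [if_pos rfl] at he hb
      rw [he, hb]
      omega
    · rw [if_neg hs1] at he hb
      obtain ⟨q, rfl⟩ := Nat.exists_eq_add_of_le (hsm.resolve_left hs1)
      rw [he, hb, Nat.add_sub_cancel_left]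
      have h1 : s * (2 + q) = 2 * s + s * q := by ring
      omega
  have h2s : 2 * s < ρ := by
    rcases hfib with ⟨h1, -, h2⟩ | ⟨-, h, -⟩
    · subst h1
      rw [if_pos rfl] at hb
      omega
    · exact h
  -- the curve
  have hcurve : ¬ KappaGe ℂ L n n → Nonempty (Pool.Agent.Helper37K9.RN.Rnc (AlgebraicClosure L)
      (Pool.Agent.Helper37K9.RN.pts L (AlgebraicClosure L) x) s) := by
    intro hg
    rcases hfib with ⟨h1, h2, h3⟩ | ⟨⟨w, t, c, hw, hc⟩, -, -⟩
    · subst h1
      exact Pool.Agent.Helper37K9.DT.collinear hNLG hd hN hx.dim hx.one hx.gen hx.zero hgr hω hω0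
        hreg hg h2 h3
    · exact Pool.Agent.Helper37K9.RN.rnc_of (L := L) hx.one hx.gen hw hc
  -- the structure
  have hstr : ¬ KappaGe ℂ L n n → _ := fun hg =>
    Pool.Agent.Helper37K9.DT.structure_kod (L := L) hNLG Pool.Agent.Y929.NT.t_W0
      Pool.Agent.Y888.NT.stDer hd hN hn hx.dim hx.one hx.gen hx.zero hgr hω hω0 hreg hg hs he
      (hcurve hg).some (ρ := ρ) (by rw [hρ, hbe.1]) h2s k (by omega) hj
  have huni : ∑ j, d j + 2 ≤ N' + 1 + d k → ¬ KappaGe ℂ L n n → IsUniruled ℂ L n := by
    intro hdeg hg
    obtain ⟨-, M, iM1, iM2, ⟨ψ⟩, hM, H, z, hH, hH0, hz0, -, hzgen, hz, hind⟩ := hstr hg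
    exact Pool.Agent.Helper37K9.RN.uniruled_down
      (Pool.Agent.Helper37K9.CI.uniruled_thm hd hN hM hH hz0 hzgen hz hind (by omega)) ψ
  have hneg : IsPseudoEffective L n → ¬ IsUniruled ℂ L n := fun h h' =>
    (Pool.Agent.W619.Y.uniruled_neg n hL h').1 ((Pool.Agent.TH466.QG.psef_iff n).1 h)
  have htf : ∑ j, d j + 2 ≤ N' + 1 + d k → [KappaGe ℂ L n n, KappaGe ℂ L n 0,
      IsPseudoEffective L n, ¬ IsUniruled ℂ L n].TFAE := by
    intro hdeg
    tfae_have 1 → 2 := fun h => Pool.Agent.R882.UA.kod_mono h (Nat.zero_le _)
    tfae_have 2 → 3 := fun h => psef_of_kodGe h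
    tfae_have 3 → 4 := hneg
    tfae_have 4 → 1 := fun h => by
      by_contra hg
      exact h (huni hdeg hg)
    tfae_finish
  refine ⟨?_, fun hdeg => ⟨htf hdeg, ?_⟩, fun hcard => ?_⟩
  · by_cases hg : KappaGe ℂ L n n
    · exact Or.inl hg
    · right
      obtain ⟨D⟩ := hcurve hg
      obtain ⟨h1, M, iM1, iM2, ⟨ψ⟩, hM, H, z, hH, hH0, hz0, -, hzgen, hz, hind⟩ := hstr hg
      refine ⟨by omega, ?_, ⟨D.w, D.t, D.c, D.ind, D.eq⟩,
        ⟨M, iM1, iM2, H, z, i, hH, hH0, ⟨hz0, hz, hzgen, hM⟩, hind, ⟨ψ⟩⟩⟩
      exact Pool.Agent.Helper37K9.RN.le_of_curve hNLG hd hN hx.dim hx.one hx.gen hx.zero hgr hω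
        hω0 hreg D (by omega) k (fun j hjk => by rw [← h1]; exact hj j hjk)
  · intro E dE f q hE hdE hf hY hF
    have hq : q ≤ f := Pool.Agent.R882.UA.kod_le_dim hf hF
    have hdf : dE + f = n := by
      have h4 := trdeg_add_eq ℂ E (A := L)
      rw [hdE, hf, hL] at h4
      exact_mod_cast h4
    by_cases hg : KappaGe ℂ L n n
    · exact Pool.Agent.R882.UA.kod_mono hg (by omega)
    · exact absurd (psef_of_kodGe (Pool.Agent.R882.UA.kod_mono hF (Nat.zero_le _)))
        (Pool.Agent.R882.UA.fib_not hL (huni hdeg hg) E hdE hf hY)
  · have hsum : ∑ j, d j = d k := by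
      rw [Fintype.sum_eq_single k]
      intro j hjk
      exact absurd (Fintype.card_le_one_iff.1 (le_of_eq hcard) j k) hjk
    have htf' := htf (by omega)
    have h51 : ¬ IsUnirational L n → KappaGe ℂ L n n := by
      intro hu
      by_contra hg
      obtain ⟨-, M, iM1, iM2, ⟨ψ⟩, hM, H, z, hH, hH0, hz0, hza, hzgen, hz, hind⟩ := hstr hg
      obtain rfl : N' = n := by omega
      obtain ⟨φ⟩ := Pool.Agent.Helper37K9.RN.purely_of_section hM hz0 hza hzgen
      exact hu ⟨φ.comp ψ⟩
    have h45 : ¬ IsUniruled ℂ L n → ¬ IsUnirational L n := fun h h' =>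
      h (Pool.Agent.Helper37K9.RN.uniruled_of_unirational hn h')
    have h12 := htf'.out 0 1
    have h13 := htf'.out 0 2
    have h14 := htf'.out 0 3
    tfae_have 1 ↔ 2 := h12
    tfae_have 1 ↔ 3 := h13
    tfae_have 1 ↔ 4 := h14
    tfae_have 5 → 1 := h51
    tfae_have 4 → 5 := h45
    tfae_finish

end Pool.Agent.Results.MP_5c318e_ag.GeneralTypeOrUniruled
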