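import Pool.Agent.Helper11K9.KR.Cur

/-!
# Images of varieties with many maps to curves: the Kodaira dimension and Viehweg's inequality

Let `V` be a smooth projective variety over the complex numbers of dimension `n` with dominant
rational maps `π_i : V ⇢ C_i`, `i = 1, ..., k`, to smooth projective curves of genera `g_i ≥ 1`, such
that `K_V - ∑ π_i ^* K_{C_i}` is effective (on a resolution of the `π_i`). For example:

* `V` may be any variety which is generically finite over a product of `n` curves (`twistedForm`
  below), for `k = n`;
* `V` may be a smooth complete intersection of very ample divisors in a product of `k > n` curves;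
* `V` may be the product of such a variety with an arbitrary variety of positive geometric genus.

Let `V ⇢ W` be any dominant rational map of degree `r` to a smooth projective variety `W` of
dimension `n`, and suppose that each `π_i` is injective on its general fibre, that is, that
`V ⇢ W × C_i` is birational onto its image. (If `r` is prime then each `π_i` has this property or
factors through `W`; one may omit those which factor.) Suppose that there is a number `c ≥ 3` such
that at least two of the curves, one of them not hyperelliptic, have genus at least `c`, and

  `2 r < ∑ (min (g_i, c) - 1)`.

(For example, `2 r < k (g - 1)` is sufficient if all curves have genus at least `g ≥ 3`, one of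
them is not hyperelliptic, and `k ≥ 2`.) Then `κ(W) = κ(V)`. Nothing else is assumed about the map
(it need not be a quotient by a group, its ramification is arbitrary) or about `V`, `W`.

So Viehweg's inequality holds for all fibrations `W → Y` if `V` is of general type, for example if
`V` is generically finite over a product of `n` curves of genera at least two. In general, let `F` be
the general fibre of a fibration `W → Y`, and `G` the general fibre of the Stein factorisation
`V → Y'` of `V ⇢ Y`. Then `κ(G) ≥ κ(F)` and `κ(Y') ≥ κ(Y)`, so that the inequality
`κ(V) ≥ κ(G) + κ(Y')` for `V → Y'` implies the one for `W → Y`. (The remarks and the second and third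
example are not formalised.)

Proof. Let `K ⊇ L` be the function fields of `V` and `W`, and `F_i` the one of `C_i`. Let `Ω` be the
form with the divisor `K_V - ∑ π_i ^* K_{C_i}`, with values in the duals of the canonical bundles of
the curves. The canonical forms on `W` which we use are the traces of the products of `Ω` and
regular differentials of the curves.

(1) Let `U` be a nonempty finite set of points of `∏ C_i` with distinct coordinates: the projections
to the curves are injective on it. If there is a linear relation with nonzero coefficients between
the values at the points of `U` of the products of regular differentials, then `U` has at least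
`∑ (min (g_i, c) - 1)` points. Proof: by Clifford's theorem the regular differentials of `C_i` have
rank at least `min (g_i, x / 2)` at `x` points; a differential which vanishes at one point less than
the rank gives a relation between fewer points for the other curves. In the end two curves remain,
the ranks of which add up to more than the number of points, by the strict form of Clifford's
inequality; but they are orthogonal.

(2) So not all the traces vanish. Let `N` be the field of their ratios. If all the `F_i` are
transcendental over `N` then consider the `r` embeddings of `K` over `L` together with their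
conjugates by an automorphism over `N` which moves everything transcendental: they satisfy a relation
as in (1) with `2 r` points, a contradiction.

(3) So there is an `F_i` which is algebraic over `N`; it generates `K` over `L`. Hence the ratio of
an `m`-canonical form of `V` and one of `W` is algebraic over the field of the ratios of the
pluricanonical forms of `W` (traces of powers of the ratio, multiplied by powers of a pluricanonical
form of `W` which vanishes at the poles and the branch divisor of a generator; there is no
ramification elsewhere), and `κ(W) = κ(V)`.

The function-field language of the starting repository is used. An `m`-canonical form (`IsPluri m`)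
on a variety of dimension `n` is a function of `n` rational vector fields; it is regular at the prime
divisor `P` (`Place`, `Divisorial`, `RegAt`) if its value on vector fields which are regular at `P`
is regular at `P`. `KodGe ℂ L n (fun _ => False) h` says that `κ ≥ h` for the smooth projective
varieties of dimension `n` with the function field `L`.
-/

set_option autoImplicit false
set_option linter.overlappingInstances false

open FF Pool.Agent.W602.GT
open Pool.Agent.Helper11K9.PR (regForms)

namespace Pool.Agent.Results.MP_5c318e_ag.ImagesAndMapsToCurves

/-- `K` is the function field of a variety of dimension `n` over `ℂ`. -/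
structure IsFunctionField (K : Type) [Field K] [Algebra ℂ K] (n : ℕ) : Prop where
  fg : (⊤ : IntermediateField ℂ K).FG
  dim : Algebra.trdeg ℂ K = n

/-- The gonality of a curve with the function field `F`: the least degree of a nonconstant rational
function `t`, that is, of `F` over `ℂ(t)`. -/
noncomputable def gonality (F : Type) [Field F] [Algebra ℂ F] : ℕ :=
  sInf {d : ℕ | ∃ t : F, Transcendental ℂ t ∧
    d = Module.finrank (IntermediateField.adjoin ℂ {t}) F}

/-- The genus of a curve over `k` with the function field `F`: the dimension of the space
`regForms k F` of regular differential forms. -/
noncomputable def genus (k F : Type) [Field k] [Field F] [Algebra k F] : ℕ :=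
  Module.finrank k (regForms k F)

/-- The definition of `regForms`: a differential form `ω` on a curve with the function field `F`, an
`F`-linear map from the rational vector fields (the derivations of `F` over `k`) to `F`, is regular if
`ω δ` has no pole at `P` for all points (places) `P` and all vector fields `δ` regular at `P`. -/
theorem mem_regForms {k F : Type} [Field k] [Field F] [Algebra k F]
    {ω : Derivation k F F →ₗ[F] F} : ω ∈ regForms k F ↔
      ∀ (P : Place k F) (δ : Derivation k F F), (∀ f, P.Reg f → P.Reg (δ f)) → P.Reg (ω δ) := Iff.rfl

/-- The values of the regular differential forms of a curve at the rational vector field `δ`. -/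
def values {F : Type} [Field F] [Algebra ℂ F] (δ : Derivation ℂ F F) : Set F :=
  {x | ∃ ω ∈ regForms ℂ F, ω δ = x}

/-- The form `Ω` is regular at all prime divisors over `V`. -/
def IsRegular {K : Type} [Field K] [Algebra ℂ K] (n : ℕ) (Ω : (Fin n → Derivation ℂ K K) → K) :
    Prop :=
  ∀ P : Place ℂ K, Divisorial n P → RegAt P Ω

/-- The `F i` are the function fields of curves `C_i`, embedded in the function field `K` of `V` by
dominant rational maps `π_i : V ⇢ C_i`. There are a canonical form `Ω ≠ 0` on `V` and rational vector
fields `δ_i ≠ 0` on the curves such that `ω_1 (δ_1) ... ω_k (δ_k) Ω` is regular at all prime divisors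
for all regular differential forms `ω_i` on the curves. In other words `δ_1 ... δ_k Ω` is a nonzero
section of `K_V - ∑ π_i ^* K_{C_i}` (if all genera are at least one, so that the canonical bundles of
the curves are generated by their sections). -/
def HasTwistedForm {K : Type} [Field K] [Algebra ℂ K] (n : ℕ) {k : ℕ}
    (F : Fin k → IntermediateField ℂ K) : Prop :=
  ∃ (Ω : (Fin n → Derivation ℂ K K) → K) (δ : ∀ i, Derivation ℂ (F i) (F i)),
    IsPluri 1 Ω ∧ (∃ D, Ω D ≠ 0) ∧ (∀ i, δ i ≠ 0) ∧
    ∀ f : ∀ i, F i, (∀ i, f i ∈ values (δ i)) → IsRegular n fun D => (∏ i, (f i : K)) * Ω D

/-- Varieties which are generically finite over a product of `n` curves have a twisted form. -/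
theorem twistedForm {K : Type} [Field K] [Algebra ℂ K] {n : ℕ} (hn : Algebra.trdeg ℂ K = n)
    (F : Fin n → IntermediateField ℂ K) (hF : ∀ i, IsFF ℂ (F i))
    (halg : Algebra.IsAlgebraic (⨆ i, F i : IntermediateField ℂ K) K) : HasTwistedForm n F := by
  obtain ⟨W, δ, h1, h2, h3, h4⟩ := Pool.Agent.Helper11K9.KR.form_of_finite hn F hF halg
  refine ⟨W, δ, h1, h2, h3, fun f hf P hP => ?_⟩
  choose ω hω hωf using hf
  have h5 := h4 ω hω P hP
  simp only [hωf] at h5
  exact h5

/-- The `F i` are function fields of curves of positive genus, and each of them generates `K` over
`L`. -/
structure GeneratingCurves {K : Type} [Field K] [Algebra ℂ K] {k : ℕ}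
    (F : Fin k → IntermediateField ℂ K) (L : IntermediateField ℂ K) : Prop where
  curve : ∀ i, IsFF ℂ (F i)
  genus_pos : ∀ i, 1 ≤ genus ℂ (F i)
  gen : ∀ i, IntermediateField.adjoin L (F i : Set K) = ⊤

/-- At least two of the curves have genus at least `c`, and one of them has gonality at least
three. -/
def TwoLarge {K : Type} [Field K] [Algebra ℂ K] {k : ℕ} (F : Fin k → IntermediateField ℂ K)
    (c : ℕ) : Prop :=
  ∃ p q, p ≠ q ∧ c ≤ genus ℂ (F p) ∧ c ≤ genus ℂ (F q) ∧ 3 ≤ gonality (F q)

/-- The sum of the numbers `min (g_i, c) - 1` for the genera `g_i` of the curves. -/
noncomputable def genusSum {K : Type} [Field K] [Algebra ℂ K] {k : ℕ}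
    (F : Fin k → IntermediateField ℂ K) (c : ℕ) : ℕ :=
  ∑ i, (min (genus ℂ (F i)) c - 1)

/-- The Kodaira dimension of the smooth projective varieties of dimension `n` over `ℂ` with the
function field `K` is at least `h`. -/
def KappaGe (K : Type) [Field K] [Algebra ℂ K] (n h : ℕ) : Prop :=
  KodGe ℂ K n (fun _ => False) h

/-- **The Kodaira dimension of images.** Let `K` be the function field of a variety `V` of dimension
`n`, let `F i` be the function fields of curves of positive genus, embedded in `K` by maps `π_i` such
that `K_V` is the sum of the `π_i ^* K_{C_i}` and an effective divisor. Let `L` be a subfield of finite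
index (the function field of a variety `W` dominated by `V`, with degree `[K : L]`) such that `K` is
generated by `F i` over `L`, for each `i`. Assume that at least two of the curves have genus at least
`c ≥ 3`, one of them with gonality at least three, and that `2 [K : L]` is less than the sum of the
numbers `min (g_i, c) - 1`. Then `κ(W) = κ(V)`. -/
theorem result {n k : ℕ} {K : Type} [Field K] [Algebra ℂ K] (hK : IsFunctionField K n)
    (F : Fin k → IntermediateField ℂ K) (hV : HasTwistedForm n F) (L : IntermediateField ℂ K)
    [FiniteDimensional L K] (hF : GeneratingCurves F L) {c : ℕ} (hc : 3 ≤ c) (hlarge : TwoLarge F c)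
    (hr : 2 * Module.finrank L K < genusSum F c) : ∀ h, KappaGe L n h ↔ KappaGe K n h := by
  have hess : Algebra.EssFiniteType ℂ K := IntermediateField.fg_top_iff.1 hK.fg
  obtain ⟨Ω, δ, hΩ, hΩ0, hδ, hreg⟩ := hV
  obtain ⟨p, q, hpq, hp, hq, hgon⟩ := hlarge
  exact (Pool.Agent.Helper11K9.KR.cur hK.dim F hF.curve hΩ hΩ0 hδ (fun ω hω P hP =>
    hreg (fun i => ω i (δ i)) (fun i => ⟨ω i, hω i, rfl⟩) P hP) L hF.gen hF.genus_pos hc hpq hp hq
    hgon).2 hr

end Pool.Agent.Results.MP_5c318e_ag.ImagesAndMapsToCurves
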