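import Pool.Agent.Helper11K9.PR.Res
import Pool.Agent.R882.UC

/-!
# Viehweg's inequality for images of products of curves

Let `V = C_1 × ... × C_n` be a product of smooth projective curves over the complex numbers (`n` is
arbitrary), of genera `g_i` and gonalities `γ_i`. Let `V ⇢ W` be a dominant rational map of degree
`r` to a smooth projective variety `W` of dimension `n`. Assume

* `g_i ≥ r` and `g_i ≥ 2` for all `i`;
* for all `i ≠ j` one of the two curves, say `C_i`, is not hyperelliptic and `g_i ≥ r + 2`;
* `r` is prime; or every curve `C_i` descends or generates: the projection `V → C_i` factors through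
  `W`, or the fibres of `V ⇢ W` are mapped injectively to `C_i` (for example, `V ⇢ W` does not factor
  through a third variety); or, with the smallest prime factor `ℓ` of `r`, for all `i ≠ j`:
  `2 r < ℓ γ_j` or `2 r < γ_i + ℓ (γ_j - 2)`.

Nothing else is assumed about the map (it need not be a quotient by a group, its ramification is
arbitrary) or about `W`; in particular `W` may be simply connected or have no holomorphic `1`-forms.

The theorem is about all fibrations `W → Y` (of smooth models; all rational maps `W ⇢ Y` onto
varieties are allowed) with generic fibre `F` and `κ(Y) ≥ 0`.

* If `K_F` is pseudo-effective then `κ(W) ≥ n - 1`.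
* `κ(W) ≥ κ(F) + dim Y`, or `F` is of general type and `W` is covered by curves of genus at most one.

As `κ(Y)` and the variation `Var (W → Y)` are at most `dim Y`, this gives Viehweg's inequality
`κ(W) ≥ κ(F) + max (κ(Y), Var)` for all fibrations `W → Y` with `κ(Y) ≥ 0`, apart from the case of
fibres of general type (where it is the theorem of Kollár, which is not formalised), and also in this
case if `W` is not covered by rational or elliptic curves.

Proof. Let `K ⊇ L` be the function fields of `V` and `W`, and `F_i` the one of `C_i`. The canonical
forms on `W` which we use are the traces of the products of regular differentials of the curves.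

(1) If all these traces vanish then `W` is uniruled, as in `MP_23b606_ag.ImagesAndGenera` of this team
(for maps such that every curve descends or generates, this is new): by Clifford's theorem the
regular differentials of a curve have rank at least `s / 2` at `s` distinct points, and more than
`s / 2` if the curve is not hyperelliptic.

(2) Let `N` be the field of the ratios of the traces. Two curves `C_p`, `C_q` cannot both be
transcendental over `N`: otherwise consider the embeddings of `L(F_p, F_q)` over `L`, together with
their conjugates by an automorphism over `N` which moves everything transcendental; they satisfy a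
linear relation on the products of differentials of `C_p` and `C_q`. As they are distinct on `F_p` and on
`F_q`, Clifford's theorem for twice as many points gives a contradiction if `F_p` and `F_q` generate
the same field; otherwise we remove embeddings of `F_q`, each with a whole fibre. Hence
`κ(W) ≥ n - 1` if `W` is not uniruled.

(3) An easy addition argument without resolutions: let `M ⊇ L` be generated by elements which are
algebraic over the field of the ratios of the pluricanonical forms of `W`. Then the ratio of a regular
form on `M` and one on `L` is algebraic over this field. (Traces of powers of the ratio, multiplied by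
powers of a pluricanonical form of `W` which vanishes at the poles and the branch divisor of a
generator.) So if `W` is not of general type and all curves but `C_p` are algebraic over this field
then the traces from `K` to `M` of the regular differentials of `C_p` are proportional over the
function field of the other curves, where `M` is generated by `L` and the other curves. As they
generate the regular differentials of the generic fibre of the fibration of `M` over the product of
the other curves, this fibre has genus at most one.

The function-field language of the starting repository is used. A canonical form (`IsPluri 1`) on a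
variety of dimension `n` is a function of `n` rational vector fields; it is regular at the prime
divisor `P` (`Place`, `Divisorial`, `RegAt`) if its value on vector fields which are regular at `P`
is regular at `P`. `KodGe k L n (fun _ => False) h` says that `κ ≥ h`, `Psef k L n (fun _ => False)`
that the canonical divisor is pseudo-effective, for the smooth projective varieties of dimension `n`
over `k` with the function field `L`.
-/

set_option autoImplicit false
set_option linter.overlappingInstances false

open FF Pool.Agent.W602.GT
open Pool.Agent.Helper11K9.PR (regForms)

namespace Pool.Agent.Results.MP_5c318e_ag.ImagesOfProductsOfCurves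

/-- `K` is the function field of a product of `n` curves over `ℂ`, and the `F i` are the function
fields of the curves (embedded in `K` by the projections): they are finitely generated of
transcendence degree one, they generate `K`, and the transcendence degree of `K` is `n`. -/
structure IsProductOfCurves {K : Type} [Field K] [Algebra ℂ K] {n : ℕ}
    (F : Fin n → IntermediateField ℂ K) : Prop where
  curve : ∀ i, IsFF ℂ (F i)
  gen : ⨆ i, F i = ⊤
  dim : Algebra.trdeg ℂ K = n

/-- The gonality of a curve with the function field `F`: the least degree of a nonconstant rational
function `t`, that is, of `F` over `ℂ(t)`. -/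
noncomputable def gonality (F : Type) [Field F] [Algebra ℂ F] : ℕ :=
  sInf {d : ℕ | ∃ t : F, Transcendental ℂ t ∧
    d = Module.finrank (IntermediateField.adjoin ℂ {t}) F}

/-- The genus of a curve over `k` with the function field `F`: the dimension of the space
`regForms k F` of regular differential forms. -/
noncomputable def genus (k F : Type) [Field k] [Field F] [Algebra k F] : ℕ :=
  Module.finrank k (regForms k F)

/-- The definition of `regForms`: a differential form `ω` on a curve with the function field `F`, an
`F`-linear map from the rational vector fields (the derivations of `F` over `k`) to `F`, is regular if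
`ω δ` has no pole at `P` for all points (places) `P` and all vector fields `δ` regular at `P`. -/
theorem mem_regForms {k F : Type} [Field k] [Field F] [Algebra k F]
    {ω : Derivation k F F →ₗ[F] F} : ω ∈ regForms k F ↔
      ∀ (P : Place k F) (δ : Derivation k F F), (∀ f, P.Reg f → P.Reg (δ f)) → P.Reg (ω δ) := Iff.rfl

/-- Every curve descends (its function field `F i` is contained in `L`) or generates (`F i` generates
`K` over `L`). -/
def DescendsOrGenerates {K : Type} [Field K] [Algebra ℂ K] {n : ℕ}
    (F : Fin n → IntermediateField ℂ K) (L : IntermediateField ℂ K) : Prop :=
  ∀ i, F i ≤ L ∨ IntermediateField.adjoin L (F i : Set K) = ⊤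

/-- The variety of dimension `n` with the function field `L` is covered by curves of genus at most
one: `L` embeds in the function field `Φ` of a curve of genus at most one over an algebraically
closed field `Λ` of transcendence degree `n - 1` over `ℂ`. -/
def CoveredByLowGenus (L : Type) [Field L] [Algebra ℂ L] (n : ℕ) : Prop :=
  ∃ (Λ Φ : Type) (_ : Field Λ) (_ : Field Φ) (_ : Algebra ℂ Λ) (_ : Algebra ℂ Φ)
    (_ : Algebra Λ Φ) (_ : IsScalarTower ℂ Λ Φ), IsAlgClosed Λ ∧ Algebra.trdeg ℂ Λ + 1 = n ∧
    IsFF Λ Φ ∧ genus Λ Φ ≤ 1 ∧ Nonempty (L →ₐ[ℂ] Φ)

/-- The Kodaira dimension of the smooth projective varieties of dimension `n` over `k` with the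
function field `K` is at least `h`. -/
def KappaGe (k K : Type) [Field k] [Field K] [Algebra k K] (n h : ℕ) : Prop :=
  KodGe k K n (fun _ => False) h

/-- The canonical divisor of the smooth projective varieties of dimension `n` over `k` with the
function field `K` is pseudo-effective. -/
def IsPseudoEffective (k K : Type) [Field k] [Field K] [Algebra k K] (n : ℕ) : Prop :=
  Psef k K n (fun _ => False)

/-- **Viehweg's inequality for images of products of curves.** Let `K` be the function field of a
product of `n` curves with the function fields `F i` and let `L` be a subfield of finite index `r`
(the function field of a smooth projective variety `W` dominated by the product, with degree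
`r = [K : L]`). Assume that all genera are at least `r` and at least two, that for all `i ≠ j` one of
the two curves has gonality at least three and genus at least `r + 2`, and that `r` is prime, or every
curve descends or generates, or, with the smallest prime factor `ℓ` of `r`, for all `i ≠ j`
`2 * r < ℓ * gonality (F j)` or `2 * r < gonality (F i) + ℓ * (gonality (F j) - 2)`.
Let `W ⇢ Y` be a dominant rational map, given by the subfield `E` of `L`, with `κ(Y) ≥ 0`,
`d = dim Y`, and let the generic fibre `Z` be of dimension `f`, a variety over `E` with the function
field `L`. If `K_Z` is pseudo-effective then `κ(W) ≥ n - 1`; and if `κ(Z) ≥ q` then `κ(W) ≥ q + d`, or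
`q = f` (so `Z` is of general type) and `W` is covered by curves of genus at most one. -/
theorem result {n : ℕ} {K : Type} [Field K] [Algebra ℂ K] (F : Fin n → IntermediateField ℂ K)
    (hF : IsProductOfCurves F) (L : IntermediateField ℂ K) [FiniteDimensional L K] (r : ℕ)
    (hr : Module.finrank L K = r) (hgenus : ∀ i, r ≤ genus ℂ (F i) ∧ 2 ≤ genus ℂ (F i))
    (hpair : ∀ i j, i ≠ j → (3 ≤ gonality (F i) ∧ r + 2 ≤ genus ℂ (F i)) ∨
      (3 ≤ gonality (F j) ∧ r + 2 ≤ genus ℂ (F j)))
    (hmap : r.Prime ∨ DescendsOrGenerates F L ∨
      ∀ i j, i ≠ j → 2 * r < r.minFac * gonality (F j) ∨
        2 * r < gonality (F i) + r.minFac * (gonality (F j) - 2))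
    (E : IntermediateField ℂ L) [Algebra.EssFiniteType ℂ E] {d f : ℕ}
    (hd : Algebra.trdeg ℂ E = d) (hf : Algebra.trdeg E L = f) (hY : KappaGe ℂ E d 0) :
    (IsPseudoEffective E L f → KappaGe ℂ L n (n - 1)) ∧
    ∀ q : ℕ, KappaGe E L f q →
      KappaGe ℂ L n (q + d) ∨ (q = f ∧ CoveredByLowGenus L n) := by
  have hcurve := hF.curve
  have hessK : Algebra.EssFiniteType ℂ K := Pool.Agent.Helper11K9.PC.ess_top F hF.gen
  have hessL : Algebra.EssFiniteType ℂ L := Pool.Agent.TH466.QG.ess_below (K := K)
  have hL : Algebra.trdeg ℂ L = n := Pool.Agent.Y184.NT.trdeg_below (K := K) hF.dim
  obtain ⟨-, h2, h3, -⟩ := Pool.Agent.Helper11K9.PR.final F hF.gen hF.dim L hr hgenus hpair hmap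
  have hdf : d + f = n := by
    have h4 := trdeg_add_eq ℂ E (A := L)
    rw [hd, hf, hL] at h4
    exact_mod_cast h4
  have hkey : IsPseudoEffective E L f → KappaGe ℂ L n (n - 1) := fun h4 =>
    h2.resolve_left fun h5 => Pool.Agent.R882.UA.fib_not hL h5 E hd hf hY h4
  refine ⟨hkey, fun q h4 => ?_⟩
  have h5 := hkey (psef_of_kodGe (Pool.Agent.R882.UA.kod_mono h4 (Nat.zero_le _)))
  have hq : q ≤ f := Pool.Agent.R882.UA.kod_le_dim hf h4
  by_cases hqf : q = f
  · rcases h3 with h3 | h3
    · left
      exact Pool.Agent.R882.UA.kod_mono h3 (by omega)
    · exact Or.inr ⟨hqf, h3⟩
  · left
    exact Pool.Agent.R882.UA.kod_mono h5 (by omega)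

end Pool.Agent.Results.MP_5c318e_ag.ImagesOfProductsOfCurves
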