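import Pool.Agent.Helper11K9.KM.Kap

/-!
# The Kodaira dimension of images and linear spans of fibres: Viehweg's inequality

Let `V` be a smooth projective variety over the complex numbers of dimension `n` with rational maps
`φ_i : V ⇢ ℙ ^ (N_i)`, `i = 1, ..., k`, such that `K_V - ∑ φ_i ^* H_i` is effective (on a resolution
of the `φ_i`, where the `H_i` are hyperplanes; the same map may be used several times). Let `V ⇢ W` be
any dominant rational map to a smooth projective variety `W` of dimension `n`. Consider the
factorisations `V ⇢ V' ⇢ W`, where the degree `e` of `V ⇢ V'` is greater than one, and let `F'` be the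
general fibre of `V ⇢ V'`.

**Theorem.** If for all these factorisations (among them `V' = W`)

  `2 e ≤ 1 + ∑ dim ⟨φ_i (F')⟩`,

where `⟨φ_i (F')⟩` is the linear span of the image of `F'`, then `κ(W) = κ(V)`.

Nothing else is assumed about the map (it need not be a quotient by a group, its ramification is
arbitrary) or about `V`, `W`. If `V ⇢ W` does not factor through a third variety, for example if its
degree `r` is prime, then the condition says that `2 r ≤ 1 + ∑ dim ⟨φ_i (F)⟩` for the general fibre
`F` of `V ⇢ W`.

So Viehweg's inequality holds for all fibrations `W → Y` if `V` is of general type. In general, let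
`G` be the general fibre of a fibration `W → Y`, and `G'` the general fibre of the Stein factorisation
`V → Y'` of `V ⇢ Y`. Then `κ(G') ≥ κ(G)` and `κ(Y') ≥ κ(Y)`, so that the inequality
`κ(V) ≥ κ(G') + κ(Y')` for `V → Y'` implies the one for `W → Y`.

Examples (the examples and remarks are not formalised):

* Let `f_i : V ⇢ ℙ ^ (a_i)` be rational maps and `K_V - ∑ m_i f_i ^* H_i` effective, for instance let
  `V` be a smooth complete intersection in `ℙ ^ (a_1) × ... × ℙ ^ (a_k)` with canonical bundle
  `O(m_1, ..., m_k)`. If each `f_i` is injective on the general fibre of `V ⇢ W` then all the spans have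
  dimension at least one, and `2 r ≤ 1 + ∑ m_i` is sufficient.
* Let `V` be a smooth complete intersection with `K_V = O(m)`, let `r` be prime, and let the general
  fibre of `V ⇢ W` span a linear space of dimension `s`. Then `W` is of general type if
  `2 r ≤ 1 + m s`.

A double covering `V → W` of an elliptic curve by a curve of bidegree `(3, 3)` in `ℙ ^ 1 × ℙ ^ 1`
shows that the condition cannot be replaced by `2 e ≤ 2 + ∑ dim ⟨φ_i (F')⟩`.

Proof. Let `K ⊇ L` be the function fields of `V` and `W`. Let `Ω` be the form with the divisor
`K_V - ∑ φ_i ^* H_i`.

(1) Not all the traces from `K` to `L` of the forms `u_1 ... u_k Ω`, where `u_i` is a coordinate of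
`φ_i`, vanish. This follows from Kneser's theorem for field extensions (Hou, Leung and Xiang).

(2) Let `N` be the field of the ratios of the traces. The `r` embeddings of `K` over `L` together with
their conjugates by an automorphism over `N` which moves everything transcendental over `N` satisfy a
relation: the `2 r` tensors `φ_1 (s) ⊗ ... ⊗ φ_k (s)` are linearly dependent, with coefficients
different from zero. By matroid union (Rado, Edmonds) there is a nonempty set `B` of the `2 r` points
with `|B| ≥ 2 + ∑ dim ⟨φ_i (B)⟩`: otherwise for a point `s` the other points could be distributed to
the `k` maps such that there are hyperplanes which contain the images of the points distributed to `i`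
but not the one of `s`, a contradiction.

(3) We may assume that at least half of the points of `B` are in the first copy; let `B'` be the set
of these points, so that `2 |B'| ≥ 2 + ∑ dim ⟨φ_i (B')⟩`. If `|B'| ≥ 2` then consider the sets `B'` for
which the difference of the two sides is maximal, and among them the largest ones. By the
submodularity of the rank and Galois invariance they are blocks of imprimitivity of the Galois group.
So they are the fibres of a map `V ⇢ V'` through which `V ⇢ W` factors, which contradicts the
assumption.

(4) So `B` has two points, one of each copy, and all the `φ_i` have the same value at them. This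
means that all the ratios of coordinates are algebraic over `N`. They generate `K` over `L`. This
implies that the ratio of a regular `w`-canonical form of `V` and one of `W` is algebraic over the
field of the ratios of the pluricanonical forms of `W`: consider the traces of the powers of the
ratio, multiplied by powers of a pluricanonical form of `W` which vanishes at the poles of a
primitive element and at the primes which divide its discriminant; the covering is unramified
elsewhere. Hence `κ(W) = κ(V)`.

The function-field language of the starting repository is used. An `m`-canonical form (`IsPluri m`)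
on a variety of dimension `n` is a function of `n` rational vector fields; it is regular at the prime
divisor `P` (`Place`, `Divisorial`, `RegAt`) if its value on vector fields which are regular at `P`
is regular at `P`. `KodGe ℂ L n (fun _ => False) h` says that `κ ≥ h` for the smooth projective
varieties of dimension `n` with the function field `L`.
-/

set_option autoImplicit false
set_option linter.overlappingInstances false

open FF Pool.Agent.W602.GT

namespace Pool.Agent.Results.MP_5c318e_ag.KodairaDimensionAndSpans

/-- The field `K` is the function field of a variety of dimension `n` over `ℂ`. -/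
structure IsFunctionField (K : Type) [Field K] [Algebra ℂ K] (n : ℕ) : Prop where
  fg : (⊤ : IntermediateField ℂ K).FG
  dim : Algebra.trdeg ℂ K = n

/-- The form `Ω` is regular at all prime divisors over `V`. -/
def IsRegular {K : Type} [Field K] [Algebra ℂ K] (n : ℕ) (Ω : (Fin n → Derivation ℂ K K) → K) :
    Prop :=
  ∀ P : Place ℂ K, Divisorial n P → RegAt P Ω

/-- Let `u i j`, `j = 1, ..., a i`, be the homogeneous coordinates (not all zero) of rational maps
`φ i` from `V` to projective spaces. There is a canonical form `Ω ≠ 0` on `V` such that all the forms
`u_1 ... u_k Ω`, where each `u_i` is one of the coordinates of `φ i`, are regular at all prime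
divisors: the canonical divisor of `V` is the sum of the `(φ i) ^* H i` and an effective divisor. -/
def HasTwistedForm {K : Type} [Field K] [Algebra ℂ K] (n : ℕ) {k : ℕ} {a : Fin k → ℕ}
    (u : ∀ i, Fin (a i) → K) : Prop :=
  (∀ i, ∃ j, u i j ≠ 0) ∧ ∃ Ω : (Fin n → Derivation ℂ K K) → K, IsPluri 1 Ω ∧ (∃ D, Ω D ≠ 0) ∧
    ∀ e : (i : Fin k) → Fin (a i), IsRegular n fun D => (∏ i, u i (e i)) * Ω D

/-- The Kodaira dimension of the smooth projective varieties of dimension `n` over `ℂ` with the
function field `K` is at least `h`. -/
def KappaGe (K : Type) [Field K] [Algebra ℂ K] (n h : ℕ) : Prop :=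
  KodGe ℂ K n (fun _ => False) h

/-- Let `M ⊆ K` be the function fields of `V' ⇠ V`, and let `u` be the homogeneous coordinates of a
rational map `φ` from `V` to a projective space. This is the dimension of the linear span of the image
under `φ` of the general fibre of `V ⇢ V'`: the dimension of the subspace over `M` of `K` which is
generated by the coordinates, minus one. -/
noncomputable def spanDim (M : Type) {K : Type} [Field M] [Field K] [Algebra M K] {a : ℕ}
    (u : Fin a → K) : ℕ :=
  Module.finrank M (Submodule.span M (Set.range u)) - 1

/-- **The Kodaira dimension of images and linear spans of fibres.** Let `K` be the function field of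
a variety `V` of dimension `n`, let `u i` be the homogeneous coordinates of rational maps `φ i` from
`V` to projective spaces, and let `K_V` be the sum of the `(φ i) ^* H i` and an effective divisor. Let
`L` be a subfield of finite index, the function field of a variety `W` dominated by `V`. Assume that
for every intermediate field `M ≠ K` (that is, for all factorisations `V ⇢ V' ⇢ W` where `V ⇢ V'` has
degree greater than one), twice the degree of `V ⇢ V'` is at most one plus the sum of the dimensions
of the linear spans of the images of its general fibre under the `φ i`. Then `κ(W) = κ(V)`. -/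
theorem result {n k : ℕ} {K : Type} [Field K] [Algebra ℂ K] (hK : IsFunctionField K n)
    {a : Fin k → ℕ} (u : ∀ i, Fin (a i) → K) (hV : HasTwistedForm n u)
    (L : IntermediateField ℂ K) [FiniteDimensional L K]
    (hM : ∀ M : IntermediateField L K, M ≠ ⊤ →
      2 * Module.finrank M K ≤ 1 + ∑ i, spanDim M (u i)) :
    ∀ h, KappaGe L n h ↔ KappaGe K n h := by
  have hess : Algebra.EssFiniteType ℂ K := IntermediateField.fg_top_iff.1 hK.fg
  have hessL : Algebra.EssFiniteType ℂ L := Pool.Agent.TH466.QG.ess_below (K := K)
  have hL : Algebra.trdeg ℂ L = n := Pool.Agent.Y184.NT.trdeg_below (K := K) hK.dim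
  obtain ⟨hu, Ω, hΩ, hΩ0, hreg⟩ := hV
  refine fun h => ⟨Pool.Agent.Helper11K9.KR.kod_down hL,
    Pool.Agent.Helper11K9.KM.gen_kap hK.dim hu hΩ hΩ0 hreg L fun M hM' => ?_⟩
  have h1 := hM M hM'
  have h2 : ∀ i, 1 ≤ Module.finrank M (Submodule.span M (Set.range (u i))) := fun i => by
    obtain ⟨j, hj⟩ := hu i
    have h3 : (⟨u i j, Submodule.subset_span ⟨j, rfl⟩⟩ : Submodule.span M (Set.range (u i))) ≠ 0 :=
      fun h => hj (congrArg Subtype.val h)
    exact Module.finrank_pos_iff_exists_ne_zero.2 ⟨_, h3⟩
  have h3 : ∑ i, spanDim M (u i) + k =
      ∑ i, Module.finrank M (Submodule.span M (Set.range (u i))) := by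
    have h4 : ∑ i : Fin k, (spanDim M (u i) + 1) = ∑ i, spanDim M (u i) + k := by
      rw [Finset.sum_add_distrib, Finset.sum_const, Finset.card_univ, Fintype.card_fin,
        smul_eq_mul, mul_one]
    rw [← h4]
    refine Finset.sum_congr rfl fun i _ => ?_
    have := h2 i
    unfold spanDim
    omega
  omega

end Pool.Agent.Results.MP_5c318e_ag.KodairaDimensionAndSpans
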